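import Mathlib
import Pool.Agent.X85.BL2

/-!
# Broken-linear transformations: the limits may take uncountably many values
-/

set_option autoImplicit false
open MeasureTheory Filter Topology Set

namespace Pool.Agent.Results.MP_8df504_an.ManyValues

/-- `T` is a broken-linear transformation of `[0, 1]` (values outside `[0, 1]` are irrelevant). -/
def BrokenLinear (T : ℝ → ℝ) : Prop :=
  MapsTo T (Icc 0 1) (Icc 0 1) ∧ ContinuousOn T (Icc 0 1) ∧
    ∃ (m : ℕ) (a : Fin (m + 1) → ℝ), StrictMono a ∧ a 0 = 0 ∧ a (Fin.last m) = 1 ∧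
      ∀ j : Fin m, ∃ c d : ℝ, ∀ x ∈ Icc (a j.castSucc) (a j.succ), T x = c * x + d

/-- The averages `A_N(R, p)`. -/
noncomputable def avg (T : ℝ → ℝ) (R : Set ℝ) (p : ℝ) (N : ℕ) : ℝ :=
  (1 / (N : ℝ)) * ∑ i ∈ Finset.Icc 1 N, R.indicator (fun _ => (1 : ℝ)) (T^[i] p)

/-- There are a broken-linear transformation `T`, which is an increasing homeomorphism of `[0, 1]`, and
a measurable set `R` such that the limit `L(p)` of the averages `A_N(R, p)` exists for every `p` in
`[0, 1]` and `L` takes uncountably many values on every set which is not a null set (in particular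
on every set of full measure). -/
theorem result : ∃ T : ℝ → ℝ, BrokenLinear T ∧ BijOn T (Icc 0 1) (Icc 0 1) ∧
    StrictMonoOn T (Icc 0 1) ∧ ∃ R : Set ℝ, R ⊆ Icc 0 1 ∧ MeasurableSet R ∧
      ∃ L : ℝ → ℝ, (∀ p ∈ Icc (0 : ℝ) 1, Tendsto (avg T R p) atTop (𝓝 (L p))) ∧
        ∀ Z ⊆ Icc (0 : ℝ) 1, volume Z ≠ 0 → ¬ (L '' Z).Countable := by
  refine ⟨X85.BL.T, X85.BL.T_broken, X85.BL.T_bij, X85.BL.T_strictMono.strictMonoOn _,
    X85.BL.R X85.BL.S2, X85.BL.R_sub, X85.BL.R_meas X85.BL.S2_meas, ?_⟩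
  exact X85.BL.second

end Pool.Agent.Results.MP_8df504_an.ManyValues
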