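import Mathlib
import Pool.Agent.X85.BL2

/-!
# Broken-linear transformations: the averages may diverge at every point
-/

set_option autoImplicit false
open MeasureTheory Filter Topology Set

namespace Pool.Agent.Results.MP_8df504_an.NoLimit

/-- `T` is a broken-linear transformation of `[0, 1]` (values outside `[0, 1]` are irrelevant). -/
def BrokenLinear (T : ℝ → ℝ) : Prop :=
  MapsTo T (Icc 0 1) (Icc 0 1) ∧ ContinuousOn T (Icc 0 1) ∧
    ∃ (m : ℕ) (a : Fin (m + 1) → ℝ), StrictMono a ∧ a 0 = 0 ∧ a (Fin.last m) = 1 ∧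
      ∀ j : Fin m, ∃ c d : ℝ, ∀ x ∈ Icc (a j.castSucc) (a j.succ), T x = c * x + d

/-- The averages `A_N(R, p)`. -/
noncomputable def avg (T : ℝ → ℝ) (R : Set ℝ) (p : ℝ) (N : ℕ) : ℝ :=
  (1 / (N : ℝ)) * ∑ i ∈ Finset.Icc 1 N, R.indicator (fun _ => (1 : ℝ)) (T^[i] p)

/-- There are a broken-linear transformation `T`, which is an increasing homeomorphism of `[0, 1]`, and
a measurable set `R` such that the averages `A_N(R, p)` diverge for every `p` in `(0, 1)`. -/
theorem result : ∃ T : ℝ → ℝ, BrokenLinear T ∧ BijOn T (Icc 0 1) (Icc 0 1) ∧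
    StrictMonoOn T (Icc 0 1) ∧ ∃ R : Set ℝ, R ⊆ Icc 0 1 ∧ MeasurableSet R ∧
      ∀ p ∈ Ioo (0 : ℝ) 1, ¬ ∃ L : ℝ, Tendsto (avg T R p) atTop (𝓝 L) := by
  refine ⟨X85.BL.T, X85.BL.T_broken, X85.BL.T_bij, X85.BL.T_strictMono.strictMonoOn _,
    X85.BL.R X85.BL.S1, X85.BL.R_sub, X85.BL.R_meas fun k => ?_, fun p hp => ?_⟩
  · unfold X85.BL.S1
    split_ifs
    · exact MeasurableSet.univ
    · exact MeasurableSet.empty
  · rintro ⟨L, hL⟩
    exact X85.BL.no_limit hp L hL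

end Pool.Agent.Results.MP_8df504_an.NoLimit
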